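import Pool.Agent.Helper57.FBC.Goals

/-! Packet Perm: relations of the permutations of a closed network. -/

set_option autoImplicit false

namespace Pool.Agent.Helper89.FBC

open Pool.Agent.Helper57.FBC Pool.Agent.Helper57.FBC.CNet

theorem T_apply (N : CNet) (w : N.In × ℤ) : N.T w = (w.1, w.2 + 1) := rfl

theorem C_apply (N : CNet) (w : N.In × ℤ) : N.C w = (N.lam (N.node w).1, (N.node w).2) := rfl

theorem Z_apply (N : CNet) (w : N.In × ℤ) :
    N.Z w = N.node.symm ((N.node w).1, (N.node w).2 + 1) := rfl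

theorem in_ext (N : CNet) {x : N.X} {a b : Fin (N.p x)} {n m : ℤ} (h : (a : ℕ) = b)
    (h' : n = m) : ((⟨x, a⟩, n) : N.In × ℤ) = (⟨x, b⟩, m) := by
  have : a = b := Fin.ext h
  rw [this, h']

theorem Z_lt (N : CNet) (x : N.X) (j : ℕ) (hj : j + 1 < N.p x) (n : ℤ) :
    N.Z (⟨x, ⟨j, by omega⟩⟩, n) = (⟨x, ⟨j + 1, hj⟩⟩, n) := by
  have e3 := aux_back (N.q x) (N.hq x) n
  have e1 := aux_mod (N.p x) (j + 1) hj (n / (N.q x : ℤ))
  have e2 := aux_div (N.p x) (j + 1) hj (n / (N.q x : ℤ))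
  have e0 : (j : ℤ) + N.p x * (n / (N.q x : ℤ)) + 1 =
      ((j + 1 : ℕ) : ℤ) + N.p x * (n / (N.q x : ℤ)) := by
    push_cast
    ring
  rw [Z_apply]
  change N.nodeInv ((⟨x, ⟨(n % (N.q x : ℤ)).toNat, _⟩⟩, (j : ℤ) + N.p x * (n / (N.q x : ℤ)) + 1)) = _
  simp only [nodeInv]
  apply in_ext
  · simp only [e0]
    exact e1
  · simp only [e0, e2]
    exact e3

theorem Z_last (N : CNet) (x : N.X) (j : ℕ) (hj : j + 1 = N.p x) (n : ℤ) :
    N.Z (⟨x, ⟨j, by omega⟩⟩, n) = (⟨x, ⟨0, N.hp x⟩⟩, n + N.q x) := by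
  have e3 := aux_back (N.q x) (N.hq x) n
  have e1 := aux_mod (N.p x) 0 (N.hp x) (n / (N.q x : ℤ) + 1)
  have e2 := aux_div (N.p x) 0 (N.hp x) (n / (N.q x : ℤ) + 1)
  have hj' : (N.p x : ℤ) = (j : ℤ) + 1 := by rw [← hj]; push_cast; ring
  have e0 : (j : ℤ) + N.p x * (n / (N.q x : ℤ)) + 1 =
      ((0 : ℕ) : ℤ) + N.p x * (n / (N.q x : ℤ) + 1) := by
    rw [hj']
    push_cast
    ring
  rw [Z_apply]
  change N.nodeInv ((⟨x, ⟨(n % (N.q x : ℤ)).toNat, _⟩⟩, (j : ℤ) + N.p x * (n / (N.q x : ℤ)) + 1)) = _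
  simp only [nodeInv]
  apply in_ext
  · simp only [e0]
    exact e1
  · simp only [e0, e2]
    rw [mul_add, mul_one, ← add_assoc, e3]

theorem T_zpow (N : CNet) (n : ℤ) (w : N.In × ℤ) : (N.T ^ n) w = (w.1, w.2 + n) := by
  have hinv : ∀ v : N.In × ℤ, N.T⁻¹ v = (v.1, v.2 - 1) := by
    intro v
    rw [Equiv.Perm.inv_eq_iff_eq, T_apply]
    simp
  induction n using Int.induction_on generalizing w with
  | zero => simp
  | succ i ih =>
    rw [zpow_add_one, Equiv.Perm.mul_apply, ih, T_apply]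
    simp only [Prod.mk.injEq, true_and]
    ring
  | pred i ih =>
    rw [zpow_sub_one, Equiv.Perm.mul_apply, ih, hinv]
    simp only [Prod.mk.injEq, true_and]
    ring

theorem Z_pow_lt (N : CNet) (x : N.X) (j : ℕ) (hj : j < N.p x) (n : ℤ) :
    (N.Z ^ j) (⟨x, ⟨0, N.hp x⟩⟩, n) = (⟨x, ⟨j, hj⟩⟩, n) := by
  induction j with
  | zero => simp
  | succ j ih =>
    rw [pow_succ', Equiv.Perm.mul_apply, ih (by omega), Z_lt N x j hj n]

theorem pf_Perm : StmtPerm := by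
  intro N
  refine ⟨?_, ?_, ?_, ?_⟩
  · ext1 w
    obtain ⟨⟨x, ⟨j, hj⟩⟩, n⟩ := w
    rw [Equiv.Perm.mul_apply, Equiv.Perm.mul_apply, T_apply N (⟨x, ⟨j, hj⟩⟩, n)]
    rcases lt_or_eq_of_le (Nat.succ_le_of_lt hj) with h | h
    · have h1 := Z_lt N x j h n
      have h2 := Z_lt N x j h (n + 1)
      rw [h1, T_apply]
      exact h2.symm
    · have h1 := Z_last N x j h n
      have h2 := Z_last N x j h (n + 1)
      rw [h1, T_apply]
      refine Eq.trans ?_ h2.symm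
      simp only [Prod.mk.injEq, true_and]
      ring
  · ext1 w
    rw [Equiv.Perm.mul_apply, Equiv.Perm.mul_apply, T_apply, C_apply N (N.Z w), Z_apply,
      Equiv.apply_symm_apply, C_apply]
  · intro x j n
    rw [Equiv.Perm.mul_apply, Z_pow_lt N x j j.2 0, T_zpow]
    simp
  · intro x n
    have hp := N.hp x
    obtain ⟨k, hk⟩ : ∃ k, N.p x = k + 1 := ⟨N.p x - 1, by omega⟩
    have e : N.Z ^ N.p x = N.Z ^ (k + 1) := congrArg (fun i => N.Z ^ i) hk
    rw [e, pow_succ', Equiv.Perm.mul_apply, Z_pow_lt N x k (by omega) n]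
    exact Z_last N x k hk.symm n

end Pool.Agent.Helper89.FBC
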